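import Pool.Agent.Helper30.LK.St

/-!
# Project LK, module STR: the structure of the survivors
-/

set_option autoImplicit false

noncomputable section

namespace Pool.Agent.Helper29.LK

open Finset ArithmeticFunction Filter Pool.Agent.Helper30.LK

/-! ### elementary facts -/

private lemma mod3 (l r : ℕ) (hl : l.Prime) (h : l ∣ r ^ 2 + r + 1) : l % 3 ≠ 2 := by
  intro h2
  haveI : Fact l.Prime := ⟨hl⟩
  haveI : Fact (Nat.Prime 3) := ⟨Nat.prime_three⟩
  have hz : (r : ZMod l) ^ 2 + r + 1 = 0 := by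
    have := (ZMod.natCast_eq_zero_iff (r ^ 2 + r + 1) l).2 h
    push_cast at this
    exact this
  have h3 : (r : ZMod l) ^ 3 = 1 := by
    have : (r : ZMod l) ^ 3 - 1 = ((r : ZMod l) - 1) * ((r : ZMod l) ^ 2 + r + 1) := by ring
    rw [hz, mul_zero, sub_eq_zero] at this
    exact this
  by_cases h1 : (r : ZMod l) = 1
  · rw [h1] at hz
    have h30 : ((3 : ℕ) : ZMod l) = 0 := by
      push_cast
      rw [← hz]
      norm_num
    rw [ZMod.natCast_eq_zero_iff] at h30
    have := (Nat.prime_dvd_prime_iff_eq hl Nat.prime_three).1 h30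
    rw [this] at h2
    norm_num at h2
  · have ho : orderOf (r : ZMod l) = 3 := orderOf_eq_prime h3 h1
    have hr0 : (r : ZMod l) ≠ 0 := by
      intro h0
      rw [h0] at h3
      norm_num at h3
    have hd := ZMod.orderOf_dvd_card_sub_one hr0
    rw [ho] at hd
    have := hl.two_le
    omega

private lemma odd_sigma_pp (p j : ℕ) (hp : p.Prime) : Odd (sigma 1 (p ^ (2 * j))) := by
  rw [sigma_one_apply_prime_pow hp]
  rcases hp.eq_two_or_odd' with h | h
  · rw [Finset.sum_range_succ', h, pow_zero]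
    refine Even.add_one ?_
    refine Finset.even_sum _ fun k _ => ?_
    rw [pow_succ]
    exact even_two.mul_left _
  · rw [Finset.odd_sum_iff_odd_card_odd]
    rw [Finset.filter_true_of_mem (fun k _ => h.pow), Finset.card_range]
    exact ⟨j, rfl⟩

private lemma odd_sigma_sq (s : ℕ) (hs : s ≠ 0) : Odd (sigma 1 (s ^ 2)) := by
  rw [isMultiplicative_sigma.multiplicative_factorization _ (pow_ne_zero 2 hs), Finsupp.prod]
  refine Finset.prod_induction _ Odd (fun a b ha hb => ha.mul hb) odd_one ?_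
  intro p hp
  have hp' : p.Prime := Nat.prime_of_mem_primeFactors (by
    rwa [Nat.support_factorization] at hp)
  rw [Nat.factorization_pow, Finsupp.smul_apply, smul_eq_mul]
  exact odd_sigma_pp p _ hp'

private lemma sigma_le (n : ℕ) : ((sigma 1 n : ℕ) : ℝ) ≤ n * (1 + Real.log n) := by
  have h1 : sigma 1 n = ∑ d ∈ n.divisors, n / d := by
    rw [sigma_one_apply]
    exact (Nat.sum_div_divisors n (fun d => d)).symm
  rw [h1, Nat.cast_sum]
  calc ∑ d ∈ n.divisors, (((n / d : ℕ)) : ℝ) ≤ ∑ d ∈ n.divisors, (n : ℝ) * (d : ℝ)⁻¹ := by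
        refine Finset.sum_le_sum fun d _ => ?_
        rw [← div_eq_mul_inv]
        exact Nat.cast_div_le
    _ ≤ ∑ d ∈ Icc 1 n, (n : ℝ) * (d : ℝ)⁻¹ := by
        refine Finset.sum_le_sum_of_subset_of_nonneg ?_ ?_
        · intro d hd
          rw [Finset.mem_Icc]
          exact ⟨Nat.pos_of_mem_divisors hd, Nat.divisor_le hd⟩
        · intro d _ _
          positivity
    _ = n * ((harmonic n : ℚ) : ℝ) := by
        rw [← Finset.mul_sum, harmonic_eq_sum_Icc]
        push_cast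
        rfl
    _ ≤ _ := by
        gcongr
        exact harmonic_le_one_add_log n

private lemma sigma_sq_le (s : ℕ) (hs : 1 ≤ s) : ((sigma 1 (s ^ 2) : ℕ) : ℝ) ≤ 2 * (s : ℝ) ^ 3 := by
  have hs' : (1 : ℝ) ≤ s := by exact_mod_cast hs
  have h1 := sigma_le (s ^ 2)
  have h2 : Real.log (((s ^ 2 : ℕ)) : ℝ) = 2 * Real.log s := by
    push_cast
    rw [Real.log_pow]
    norm_num
  rw [h2] at h1
  have h3 : Real.log s ≤ s - 1 := Real.log_le_sub_one_of_pos (by linarith)
  have h4 : ((s ^ 2 : ℕ) : ℝ) = (s : ℝ) ^ 2 := by push_cast; ring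
  rw [h4] at h1
  have h5 : 1 + 2 * Real.log s ≤ 2 * s := by linarith
  calc ((sigma 1 (s ^ 2) : ℕ) : ℝ) ≤ (s : ℝ) ^ 2 * (1 + 2 * Real.log s) := h1
    _ ≤ (s : ℝ) ^ 2 * (2 * s) := by gcongr
    _ = 2 * (s : ℝ) ^ 3 := by ring

private lemma sigma_mul {a b : ℕ} (h : Nat.Coprime a b) : sigma 1 (a * b) = sigma 1 a * sigma 1 b :=
  isMultiplicative_sigma.map_mul_of_coprime h

private lemma sigma_prime_sq (p : ℕ) (hp : p.Prime) : sigma 1 (p ^ 2) = p ^ 2 + p + 1 := by
  rw [sigma_one_apply_prime_pow hp]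
  simp [Finset.sum_range_succ]
  ring

/-! ### the decomposition -/

private lemma decomp (m : ℕ) (hm : m ≠ 0) : ∃ s t : ℕ, m = s * t ∧ Nat.Coprime s t ∧ Pw s ∧
    Squarefree t ∧ ∀ p : ℕ, p.Prime → p ∣ t → p ∣ m ∧ ¬ p ^ 2 ∣ m := by
  classical
  obtain ⟨Q, hQ⟩ : ∃ Q, Q = m.primeFactors.filter (fun p => ¬ p ^ 2 ∣ m) := ⟨_, rfl⟩
  have hQm : ∀ p, p ∈ Q ↔ p.Prime ∧ p ∣ m ∧ ¬ p ^ 2 ∣ m := by
    intro p
    rw [hQ, Finset.mem_filter, Nat.mem_primeFactors]
    tauto
  obtain ⟨t, ht⟩ : ∃ t, t = ∏ p ∈ Q, p := ⟨_, rfl⟩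
  have htm : t ∣ m := by
    rw [ht]
    exact Finset.prod_primes_dvd m (fun p hp => ((hQm p).1 hp).1.prime) (fun p hp => ((hQm p).1 hp).2.1)
  have hpt : ∀ p : ℕ, p.Prime → (p ∣ t ↔ p ∈ Q) := by
    intro p hp
    rw [ht]
    constructor
    · intro h
      obtain ⟨q, hq, hpq⟩ := (Prime.dvd_finset_prod_iff hp.prime _).1 h
      rw [(Nat.prime_dvd_prime_iff_eq hp ((hQm q).1 hq).1).1 hpq]
      exact hq
    · intro h
      exact Finset.dvd_prod_of_mem _ h
  obtain ⟨s, hs⟩ := htm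
  have hms : m = s * t := by rw [hs, mul_comm]
  refine ⟨s, t, hms, ?_, ?_, ?_, ?_⟩
  · rw [Nat.coprime_iff_gcd_eq_one]
    by_contra hne
    obtain ⟨p, hp, hpd⟩ := Nat.exists_prime_and_dvd hne
    have h1 : p ∣ s := hpd.trans (Nat.gcd_dvd_left _ _)
    have h2 : p ∣ t := hpd.trans (Nat.gcd_dvd_right _ _)
    have h3 := ((hQm p).1 ((hpt p hp).1 h2)).2.2
    apply h3
    rw [hms, pow_two]
    exact mul_dvd_mul h1 h2
  · intro p hp hps
    have hpm : p ∣ m := by
      rw [hms]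
      exact hps.mul_right _
    have hnt : ¬ p ∣ t := by
      intro h
      have h3 := ((hQm p).1 ((hpt p hp).1 h)).2.2
      apply h3
      rw [hms, pow_two]
      exact mul_dvd_mul hps h
    have h2 : p ^ 2 ∣ m := by
      by_contra h
      exact hnt ((hpt p hp).2 ((hQm p).2 ⟨hp, hpm, h⟩))
    rw [hms] at h2
    exact (Nat.Coprime.pow_left 2 ((Nat.Prime.coprime_iff_not_dvd hp).2 hnt)).dvd_of_dvd_mul_right h2
  · rw [Nat.squarefree_iff_prime_squarefree]
    intro p hp hpp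
    have h1 : p ∣ t := (Dvd.intro _ rfl).trans hpp
    have h3 := ((hQm p).1 ((hpt p hp).1 h1)).2.2
    apply h3
    rw [pow_two, hms]
    exact hpp.mul_left _
  · intro p hp h
    exact ((hQm p).1 ((hpt p hp).1 h)).2

private lemma log_pow_le (K : ℝ) (r : ℕ) (ε : ℝ) (hε : 0 < ε) :
    ∀ᶠ a : ℕ in atTop, K * Real.log a ^ r ≤ (a : ℝ) ^ ε := by
  have h := isLittleO_log_rpow_rpow_atTop (r : ℝ) hε
  have hK : 0 < 1 / (|K| + 1) := by positivity
  have h2 := (h.bound hK).and (eventually_ge_atTop (1 : ℝ))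
  have h3 := tendsto_natCast_atTop_atTop.eventually h2
  filter_upwards [h3] with a ha
  obtain ⟨h4, h5⟩ := ha
  have hl : 0 ≤ Real.log (a : ℝ) := Real.log_nonneg h5
  rw [Real.rpow_natCast, Real.norm_of_nonneg (by positivity), Real.norm_of_nonneg (by positivity),
    div_mul_eq_mul_div, one_mul, le_div_iff₀ (by positivity)] at h4
  calc K * Real.log a ^ r ≤ |K| * Real.log a ^ r := by
        gcongr
        exact le_abs_self K
    _ ≤ Real.log a ^ r * (|K| + 1) := by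
        have : 0 ≤ Real.log (a : ℝ) ^ r := by positivity
        nlinarith
    _ ≤ _ := h4

private lemma log_ge (K : ℝ) : ∀ᶠ a : ℕ in atTop, K ≤ Real.log a :=
  (Real.tendsto_log_atTop.comp tendsto_natCast_atTop_atTop).eventually_ge_atTop K

theorem hSTR : StSTR := by
  classical
  have hev : ∀ᶠ x : ℕ in atTop, 2 ≤ Real.log x ∧ 2 * Real.log x ^ 13 ≤ (x : ℝ) ∧ 4097 ≤ x := by
    filter_upwards [log_ge 2, log_pow_le 2 13 1 one_pos, eventually_ge_atTop 4097] with x h1 h2 h3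
    rw [Real.rpow_one] at h2
    exact ⟨h1, h2, h3⟩
  obtain ⟨x₀, hx₀⟩ := Filter.eventually_atTop.1 hev
  refine ⟨x₀, ?_⟩
  intro x M m hx hM hm
  obtain ⟨hl2, hl13, hx4⟩ := hx₀ x hx
  have hxr : (4097 : ℝ) ≤ x := by exact_mod_cast hx4
  have hx0 : (0 : ℝ) < x := by linarith
  obtain ⟨hmI, hsv⟩ := Finset.mem_filter.1 hm
  obtain ⟨hm1, hmM⟩ := Finset.mem_Icc.1 hmI
  obtain ⟨s, t, hst, hco, hPw, hsq, hpt⟩ := decomp m (by omega)
  have hs0 : s ≠ 0 := by
    intro h
    rw [h, zero_mul] at hst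
    omega
  have ht0 : t ≠ 0 := by
    intro h
    rw [h, mul_zero] at hst
    omega
  -- the primes of `t`
  have hAl : ∀ p : ℕ, p.Prime → p ∣ t → Al x p := by
    intro p hp hpd
    refine ⟨hp, ?_⟩
    intro l hl hlx hld
    obtain ⟨h1, h2⟩ := hpt p hp hpd
    obtain ⟨m', hm'⟩ := h1
    have hpm' : ¬ p ∣ m' := by
      intro h
      apply h2
      rw [hm', pow_two]
      exact mul_dvd_mul_left p h
    have hcop : Nat.Coprime (p ^ 2) (m' ^ 2) :=
      Nat.Coprime.pow 2 2 ((Nat.Prime.coprime_iff_not_dvd hp).2 hpm')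
    have hsig : sigma 1 (m ^ 2) = (p ^ 2 + p + 1) * sigma 1 (m' ^ 2) := by
      rw [hm', mul_pow, sigma_mul hcop, sigma_prime_sq p hp]
    have hl2' : l ≠ 2 := by
      intro h
      rw [h] at hld
      have : Odd (p ^ 2 + p + 1) := by
        have h3 : Even (p * (p + 1)) := Nat.even_mul_succ_self p
        have h4 : p ^ 2 + p + 1 = p * (p + 1) + 1 := by ring
        rw [h4]
        exact h3.add_one
      exact (Nat.not_even_iff_odd.2 this) (even_iff_two_dvd.2 hld)
    have hrs : rs x l = 0 := by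
      unfold rs
      rw [if_neg]
      intro h
      exact mod3 l p hl hld h.1
    apply hsv l hl hl2' hlx
    rw [hrs, Nat.modEq_zero_iff_dvd, hsig]
    exact hld.mul_right _
  -- the size of the primes
  have hsize : ∀ p : ℕ, Al x p → √(x : ℝ) / 2 ≤ p := by
    intro p hA
    obtain ⟨hp, hA⟩ := hA
    obtain ⟨l, hl, hld⟩ := Nat.exists_prime_and_dvd (show p ^ 2 + p + 1 ≠ 1 by
      have := hp.two_le
      have : 0 < p ^ 2 := by positivity
      omega)
    have h1 : x < 2 * l := by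
      by_contra h
      exact hA l hl (by omega) hld
    have h2 : l ≤ p ^ 2 + p + 1 := Nat.le_of_dvd (by positivity) hld
    have h3 : p ^ 2 + p + 1 ≤ 2 * p ^ 2 := by
      have := hp.two_le
      nlinarith
    have h4 : x ≤ (2 * p) ^ 2 := by
      have : (2 * p) ^ 2 = 4 * p ^ 2 := by ring
      omega
    have h5 : √(x : ℝ) ≤ 2 * p := by
      rw [Real.sqrt_le_left (by positivity)]
      exact_mod_cast h4
    linarith
  -- real powers
  have hsq_pow : √(x : ℝ) = (x : ℝ) ^ (1 / 2 : ℝ) := Real.sqrt_eq_rpow _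
  have h25 : (x : ℝ) ^ (2 / 5 : ℝ) ≤ √(x : ℝ) / 2 := by
    have h1 : (2 : ℝ) ≤ (x : ℝ) ^ (1 / 10 : ℝ) := by
      have h2 : (2 : ℝ) = (1024 : ℝ) ^ (1 / 10 : ℝ) := by
        rw [show (1024 : ℝ) = 2 ^ (10 : ℝ) by norm_num, ← Real.rpow_mul (by norm_num)]
        norm_num
      rw [h2]
      exact Real.rpow_le_rpow (by norm_num) (by linarith) (by norm_num)
    rw [hsq_pow, le_div_iff₀ (by norm_num)]
    calc (x : ℝ) ^ (2 / 5 : ℝ) * 2 ≤ (x : ℝ) ^ (2 / 5 : ℝ) * (x : ℝ) ^ (1 / 10 : ℝ) := by gcongr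
      _ = (x : ℝ) ^ (1 / 2 : ℝ) := by
          rw [← Real.rpow_add hx0]
          norm_num
  have hcube : (x : ℝ) ^ (5 / 4 : ℝ) < (√(x : ℝ) / 2) ^ 3 := by
    have h1 : (8 : ℝ) < (x : ℝ) ^ (1 / 4 : ℝ) := by
      have h2 : (8 : ℝ) = (4096 : ℝ) ^ (1 / 4 : ℝ) := by
        rw [show (4096 : ℝ) = 8 ^ (4 : ℝ) by norm_num, ← Real.rpow_mul (by norm_num)]
        norm_num
      rw [h2]
      exact Real.rpow_lt_rpow (by norm_num) (by linarith) (by norm_num)
    have h3 : (√(x : ℝ) / 2) ^ 3 = (x : ℝ) ^ (5 / 4 : ℝ) * (x : ℝ) ^ (1 / 4 : ℝ) / 8 := by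
      rw [div_pow, hsq_pow, ← Real.rpow_natCast ((x : ℝ) ^ (1 / 2 : ℝ)) 3, ← Real.rpow_mul hx0.le,
        ← Real.rpow_add hx0]
      norm_num
    rw [h3, lt_div_iff₀ (by norm_num)]
    have : 0 < (x : ℝ) ^ (5 / 4 : ℝ) := by positivity
    nlinarith
  refine ⟨s, t, hst, hco, hPw, hsq, ?_, ?_, ?_, ?_⟩
  · by_contra hcon
    push Not at hcon
    obtain ⟨hs1, hs4⟩ := hcon
    have hs2 : 1 ≤ s := by omega
    have hs3 : 2 ≤ s := by omega
    have hodd := odd_sigma_sq s hs0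
    have hne : sigma 1 (s ^ 2) ≠ 1 := by
      have h1 : s ^ 2 ≤ sigma 1 (s ^ 2) := by
        rw [sigma_one_apply]
        exact Finset.single_le_sum (f := fun d => d) (fun d _ => Nat.zero_le d)
          (Nat.mem_divisors_self (s ^ 2) (pow_ne_zero 2 hs0))
      have h2 : 4 ≤ s ^ 2 := by nlinarith
      omega
    obtain ⟨l, hl, hld⟩ := Nat.exists_prime_and_dvd hne
    have hl2' : l ≠ 2 := by
      intro h
      rw [h] at hld
      exact (Nat.not_even_iff_odd.2 hodd) (even_iff_two_dvd.2 hld)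
    have hle : (l : ℝ) ≤ Real.log x ^ 13 := by
      have h1 : l ≤ sigma 1 (s ^ 2) := Nat.le_of_dvd hodd.pos hld
      have h1' : (l : ℝ) ≤ ((sigma 1 (s ^ 2) : ℕ) : ℝ) := by exact_mod_cast h1
      have h2 := sigma_sq_le s hs2
      have h3 : (s : ℝ) ^ 3 ≤ (Real.log x ^ 4) ^ 3 := pow_le_pow_left₀ (by positivity) hs4 3
      calc (l : ℝ) ≤ 2 * (s : ℝ) ^ 3 := h1'.trans h2
        _ ≤ 2 * (Real.log x ^ 4) ^ 3 := by linarith
        _ ≤ Real.log x * (Real.log x ^ 4) ^ 3 := by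
            have : 0 ≤ (Real.log x ^ 4) ^ 3 := by positivity
            nlinarith
        _ = Real.log x ^ 13 := by ring
    have hlx : 2 * l ≤ x := by
      have : 2 * (l : ℝ) ≤ x := by linarith
      exact_mod_cast this
    have hrs : rs x l = 0 := by
      unfold rs
      rw [if_neg]
      intro h
      exact absurd h.2 (not_lt.2 hle)
    apply hsv l hl hl2' hlx
    rw [hrs, Nat.modEq_zero_iff_dvd, hst, mul_pow, sigma_mul (Nat.Coprime.pow 2 2 hco)]
    exact hld.mul_right _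
  · intro p hp hpd
    have hA := hAl p hp hpd
    exact ⟨hA, h25.trans (hsize p hA)⟩
  · intro hs1 htp
    refine ⟨hAl t htp dvd_rfl, ?_⟩
    intro l hl hl3 hl13' hlx hmod
    have hmt : m = t := by rw [hst, hs1, one_mul]
    have hrs : rs x l = 3 := by
      unfold rs
      rw [if_pos ⟨hl3, hl13'⟩]
    have hl2' : l ≠ 2 := by
      intro h
      rw [h] at hl13'
      have h1 : (2 : ℝ) ^ 13 ≤ Real.log x ^ 13 := pow_le_pow_left₀ (by norm_num) hl2 13
      norm_num at h1 hl13'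
      linarith
    apply hsv l hl hl2' hlx
    rw [hrs, hmt, sigma_prime_sq t htp]
    exact hmod
  · by_contra hcard
    push Not at hcard
    have hprod : ∏ p ∈ t.primeFactors, p = t := Nat.prod_primeFactors_of_squarefree hsq
    have hy : (1 : ℝ) ≤ √(x : ℝ) / 2 := by
      have h1 : (2 : ℝ) ≤ √(x : ℝ) := by
        have h0 : (2 : ℝ) ^ 2 ≤ x := by norm_num; linarith
        exact Real.le_sqrt_of_sq_le h0
      linarith
    have h1 : (√(x : ℝ) / 2) ^ t.primeFactors.card ≤ ∏ p ∈ t.primeFactors, (p : ℝ) := by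
      rw [← Finset.prod_const]
      refine Finset.prod_le_prod (fun _ _ => by positivity) fun p hp => ?_
      exact hsize p (hAl p (Nat.prime_of_mem_primeFactors hp) (Nat.dvd_of_mem_primeFactors hp))
    have h2 : (∏ p ∈ t.primeFactors, (p : ℝ)) = (t : ℝ) := by
      rw [← hprod]
      push_cast
      rw [hprod]
    have h3 : (√(x : ℝ) / 2) ^ 3 ≤ (√(x : ℝ) / 2) ^ t.primeFactors.card :=
      pow_le_pow_right₀ hy (by omega)
    have h4 : t ≤ M := by
      have : t ≤ m := by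
        rw [hst]
        exact Nat.le_mul_of_pos_left t (Nat.pos_of_ne_zero hs0)
      omega
    have h5 : (t : ℝ) ≤ (M : ℝ) := by exact_mod_cast h4
    rw [h2] at h1
    linarith

end Pool.Agent.Helper29.LK
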